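import Mathlib

set_option autoImplicit false

open MeasureTheory Metric Set Filter Topology
open scoped RealInnerProductSpace

namespace Pool.Agent.Results.MP_c699aa_gt.FullConvergence

/-- The space `ℝⁿ`. -/
abbrev Sp (n : ℕ) := EuclideanSpace ℝ (Fin n)

/-- `π_u(A)`: the orthogonal projection of `A` onto the hyperplane orthogonal to `u`. -/
def proj {n : ℕ} (u : Sp n) (A : Set (Sp n)) : Set (Sp n) :=
  {x | ⟪u, x⟫ = 0 ∧ ∃ s : ℝ, x + s • u ∈ A}

/-- `ℓ_{A,u}(x)`: the length of the intersection of `A` with the line `x + ℝ u`. -/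
noncomputable def len {n : ℕ} (u : Sp n) (A : Set (Sp n)) (x : Sp n) : ℝ :=
  (volume {t : ℝ | x + t • u ∈ A}).toReal

/-- The Steiner symmetrization of `A` in direction `u`. -/
def steiner {n : ℕ} (u : Sp n) (A : Set (Sp n)) : Set (Sp n) :=
  {z | ∃ x ∈ proj u A, ∃ t : ℝ, |t| ≤ len u A x / 2 ∧ z = x + t • u}

/-- The iterated symmetrizations: `iter u A i` is `S_{u_i} ⋯ S_{u_1} A` (with `u_{k+1} = u k`). -/
def iter {n : ℕ} (u : ℕ → Sp n) (A : Set (Sp n)) : ℕ → Set (Sp n)
  | 0 => A
  | i + 1 => steiner (u i) (iter u A i)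

section Basic

variable {n : ℕ} {u : Sp n} {A : Set (Sp n)}

/-- the component orthogonal to `u`. -/
noncomputable def P (u : Sp n) (z : Sp n) : Sp n := z - ⟪u, z⟫ • u

lemma P_cont : Continuous (P u) := by
  unfold P
  fun_prop

lemma inner_P (hu : ‖u‖ = 1) (z : Sp n) : ⟪u, P u z⟫ = 0 := by
  unfold P
  rw [inner_sub_right, inner_smul_right, real_inner_self_eq_norm_sq, hu]
  ring

lemma P_add (hu : ‖u‖ = 1) {x : Sp n} (hx : ⟪u, x⟫ = 0) (t : ℝ) : P u (x + t • u) = x := by
  unfold P
  rw [inner_add_right, inner_smul_right, real_inner_self_eq_norm_sq, hu, hx]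
  simp

lemma inner_add (hu : ‖u‖ = 1) {x : Sp n} (hx : ⟪u, x⟫ = 0) (t : ℝ) : ⟪u, x + t • u⟫ = t := by
  rw [inner_add_right, inner_smul_right, real_inner_self_eq_norm_sq, hu, hx]
  simp

lemma P_decomp (z : Sp n) : z = P u z + ⟪u, z⟫ • u := by
  unfold P
  simp

lemma norm_sq_add (hu : ‖u‖ = 1) {x : Sp n} (hx : ⟪u, x⟫ = 0) (t : ℝ) :
    ‖x + t • u‖ ^ 2 = ‖x‖ ^ 2 + t ^ 2 := by
  have h0 : ⟪x, u⟫ = 0 := by rw [real_inner_comm]; exact hx
  rw [norm_add_sq_real, inner_smul_right, norm_smul, hu, h0]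
  simp

lemma mem_steiner (hu : ‖u‖ = 1) (z : Sp n) :
    z ∈ steiner u A ↔ P u z ∈ P u '' A ∧ |⟪u, z⟫| ≤ len u A (P u z) / 2 := by
  constructor
  · rintro ⟨x, ⟨hx, s, hs⟩, t, ht, rfl⟩
    rw [P_add hu hx, inner_add hu hx]
    exact ⟨⟨x + s • u, hs, P_add hu hx s⟩, ht⟩
  · rintro ⟨⟨y, hy, hyz⟩, h2⟩
    refine ⟨P u z, ⟨inner_P hu z, ⟪u, y⟫, ?_⟩, ⟪u, z⟫, h2, P_decomp z⟩
    rw [← hyz, ← P_decomp y]
    exact hy

lemma line_closed (hA : IsClosed A) (x : Sp n) : IsClosed {t : ℝ | x + t • u ∈ A} :=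
  hA.preimage (by fun_prop)

lemma line_bounded (hu : ‖u‖ = 1) {R : ℝ} (hA : A ⊆ closedBall 0 R) (x : Sp n) :
    {t : ℝ | x + t • u ∈ A} ⊆ closedBall 0 (R + ‖x‖) := by
  intro t ht
  have h1 := hA ht
  rw [mem_closedBall_zero_iff] at h1 ⊢
  have h2 : ‖t • u‖ ≤ ‖x + t • u‖ + ‖x‖ := by
    have := norm_sub_le (x + t • u) x
    simpa using this
  rw [norm_smul, hu, mul_one] at h2
  linarith

lemma line_compact (hu : ‖u‖ = 1) (hA : IsCompact A) (x : Sp n) :
    IsCompact {t : ℝ | x + t • u ∈ A} := by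
  obtain ⟨R, hR⟩ := hA.isBounded.subset_closedBall 0
  exact (isCompact_closedBall (0 : ℝ) (R + ‖x‖)).of_isClosed_subset (line_closed hA.isClosed x)
    (line_bounded hu hR x)

/-- upper semicontinuity of the length, in neighbourhood form. -/
lemma len_usc (hu : ‖u‖ = 1) (hA : IsCompact A) {x : Sp n} {c : ℝ}
    (hc : len u A x < c) : ∀ᶠ x' in 𝓝 x, ⟪u, x'⟫ = 0 → len u A x' ≤ c := by
  set T : Set ℝ := {t : ℝ | x + t • u ∈ A} with hT
  have hTc : IsCompact T := line_compact hu hA x
  have hlim := tendsto_measure_cthickening_of_isCompact (μ := (volume : Measure ℝ)) hTc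
  have hfin : volume T ≠ ⊤ := hTc.measure_lt_top.ne
  have hcpos : 0 ≤ len u A x := ENNReal.toReal_nonneg
  have hlt : volume T < ENNReal.ofReal c := by
    rw [ENNReal.lt_ofReal_iff_toReal_lt hfin]
    exact hc
  have hev := hlim.eventually (gt_mem_nhds hlt)
  obtain ⟨δ, hδ, hδ'⟩ : ∃ δ > 0, volume (cthickening δ T) < ENNReal.ofReal c := by
    rw [Metric.eventually_nhds_iff] at hev
    obtain ⟨ε, hε, h⟩ := hev
    refine ⟨ε / 2, by linarith, h ?_⟩
    rw [Real.dist_eq, sub_zero, abs_of_pos (by linarith)]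
    linarith
  set A' : Set (Sp n) := A ∩ {z | ⟪u, z⟫ ∉ thickening δ T} with hA'
  have hA'c : IsCompact A' := by
    apply hA.inter_right
    have : IsClosed ((thickening δ T)ᶜ) := isOpen_thickening.isClosed_compl
    exact this.preimage (f := fun z : Sp n => ⟪u, z⟫) (by fun_prop)
  have hPc : IsCompact (P u '' A') := hA'c.image P_cont
  have hx' : x ∉ P u '' A' := by
    rintro ⟨z, ⟨hz, hz2⟩, hz3⟩
    apply hz2
    apply self_subset_thickening hδ
    change x + ⟪u, z⟫ • u ∈ A
    rw [← hz3, ← P_decomp z]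
    exact hz
  have hnb : (P u '' A')ᶜ ∈ 𝓝 x := hPc.isClosed.isOpen_compl.mem_nhds hx'
  filter_upwards [hnb] with x' hx'' hx0
  have hsub : {t : ℝ | x' + t • u ∈ A} ⊆ cthickening δ T := by
    intro t ht
    by_contra hnot
    apply hx''
    refine ⟨x' + t • u, ⟨ht, ?_⟩, P_add hu hx0 t⟩
    intro h
    rw [inner_add hu hx0] at h
    exact hnot (thickening_subset_cthickening δ T h)
  unfold len
  apply ENNReal.toReal_le_of_le_ofReal (le_trans hcpos hc.le)
  exact (measure_mono hsub).trans hδ'.le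

lemma steiner_closed (hu : ‖u‖ = 1) (hA : IsCompact A) : IsClosed (steiner u A) := by
  rw [← isOpen_compl_iff, isOpen_iff_mem_nhds]
  intro z hz
  rw [mem_compl_iff, mem_steiner hu, not_and_or] at hz
  rcases hz with hz | hz
  · have hcl : IsClosed (P u '' A) := (hA.image P_cont).isClosed
    have h1 : ∀ᶠ w in 𝓝 z, P u w ∈ (P u '' A)ᶜ :=
      P_cont.continuousAt.eventually (hcl.isOpen_compl.mem_nhds hz)
    filter_upwards [h1] with w hw hw2
    rw [mem_steiner hu] at hw2
    exact hw hw2.1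
  · push Not at hz
    have hc : len u A (P u z) < len u A (P u z) / 2 + |⟪u, z⟫| := by linarith
    obtain ⟨c, hc1, hc2⟩ := exists_between (show len u A (P u z) < 2 * |⟪u, z⟫| by linarith)
    have h1 := len_usc hu hA hc1
    have h2 : ∀ᶠ w in 𝓝 z, ⟪u, P u w⟫ = 0 → len u A (P u w) ≤ c :=
      P_cont.continuousAt.eventually h1
    have hcont : Continuous (fun w : Sp n => 2 * |⟪u, w⟫|) := by fun_prop
    have h3 : ∀ᶠ w in 𝓝 z, c < 2 * |⟪u, w⟫| := hcont.continuousAt.eventually (lt_mem_nhds hc2)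
    filter_upwards [h2, h3] with w hw hw3 hw2
    rw [mem_steiner hu] at hw2
    have := hw (inner_P hu w)
    linarith [hw2.2]

lemma steiner_subset_ball (hu : ‖u‖ = 1) {R : ℝ} (hA : A ⊆ closedBall 0 R) :
    steiner u A ⊆ closedBall 0 R := by
  rintro z ⟨x, ⟨hx, s, hs⟩, t, ht, rfl⟩
  have hs' := hA hs
  rw [mem_closedBall_zero_iff] at hs' ⊢
  have hR : 0 ≤ R := (norm_nonneg _).trans hs'
  have h1 : ‖x‖ ^ 2 + s ^ 2 ≤ R ^ 2 := by
    rw [← norm_sq_add hu hx]
    exact pow_le_pow_left₀ (norm_nonneg _) hs' 2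
  have h2 : 0 ≤ R ^ 2 - ‖x‖ ^ 2 := by nlinarith [sq_nonneg s]
  set h := Real.sqrt (R ^ 2 - ‖x‖ ^ 2) with hh
  have hh0 : 0 ≤ h := Real.sqrt_nonneg _
  have hh2 : h ^ 2 = R ^ 2 - ‖x‖ ^ 2 := Real.sq_sqrt h2
  have hlen : len u A x ≤ 2 * h := by
    unfold len
    apply ENNReal.toReal_le_of_le_ofReal (by linarith)
    calc volume {t : ℝ | x + t • u ∈ A} ≤ volume (Icc (-h) h) := by
          apply measure_mono
          intro τ hτ
          have := hA hτ
          rw [mem_closedBall_zero_iff] at this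
          have h3 : ‖x‖ ^ 2 + τ ^ 2 ≤ R ^ 2 := by
            rw [← norm_sq_add hu hx]
            exact pow_le_pow_left₀ (norm_nonneg _) this 2
          rw [mem_Icc, ← abs_le]
          apply abs_le_of_sq_le_sq _ hh0
          linarith
      _ = ENNReal.ofReal (2 * h) := by
          rw [Real.volume_Icc]; congr 1; ring
  have ht2 : t ^ 2 ≤ h ^ 2 := by
    apply sq_le_sq'
    · linarith [(abs_le.mp ht).1]
    · linarith [(abs_le.mp ht).2]
  apply le_of_sq_le_sq _ hR
  rw [norm_sq_add hu hx]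
  linarith

lemma steiner_compact (hu : ‖u‖ = 1) (hA : IsCompact A) : IsCompact (steiner u A) := by
  obtain ⟨R, hR⟩ := hA.isBounded.subset_closedBall 0
  exact (isCompact_closedBall (0 : Sp n) R).of_isClosed_subset (steiner_closed hu hA)
    (steiner_subset_ball hu hR)

/-- the comparison on a single line. -/
lemma line_compare (hu : ‖u‖ = 1) (hA : IsCompact A) {R : ℝ} {x : Sp n} (hx : ⟪u, x⟫ = 0) :
    volume {t : ℝ | x + t • u ∈ A ∩ closedBall 0 R} ≤
      volume {t : ℝ | x + t • u ∈ steiner u A ∩ closedBall 0 R} := by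
  by_cases hne : ∃ s : ℝ, x + s • u ∈ A ∩ closedBall 0 R
  · obtain ⟨s, hs, hsR⟩ := hne
    have hsR' : ‖x + s • u‖ ≤ R := by simpa using hsR
    have hR : 0 ≤ R := (norm_nonneg _).trans hsR'
    have h1 : ‖x‖ ^ 2 + s ^ 2 ≤ R ^ 2 := by
      rw [← norm_sq_add hu hx]
      exact pow_le_pow_left₀ (norm_nonneg _) hsR' 2
    have h2 : 0 ≤ R ^ 2 - ‖x‖ ^ 2 := by nlinarith [sq_nonneg s]
    set h := Real.sqrt (R ^ 2 - ‖x‖ ^ 2) with hh
    have hh0 : 0 ≤ h := Real.sqrt_nonneg _
    have hh2 : h ^ 2 = R ^ 2 - ‖x‖ ^ 2 := Real.sq_sqrt h2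
    set ℓ := len u A x with hℓ
    have hℓ0 : 0 ≤ ℓ := ENNReal.toReal_nonneg
    have hvol : volume {t : ℝ | x + t • u ∈ A} = ENNReal.ofReal ℓ := by
      rw [hℓ]; unfold len
      rw [ENNReal.ofReal_toReal (line_compact hu hA x).measure_lt_top.ne]
    set m := min (ℓ / 2) h with hm
    have hsub : Icc (-m) m ⊆ {t : ℝ | x + t • u ∈ steiner u A ∩ closedBall 0 R} := by
      intro t ht
      rw [mem_Icc, ← abs_le] at ht
      refine ⟨⟨x, ⟨hx, s, hs⟩, t, ht.trans (min_le_left _ _), rfl⟩, ?_⟩
      rw [mem_closedBall_zero_iff]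
      apply le_of_sq_le_sq _ hR
      rw [norm_sq_add hu hx]
      have : t ^ 2 ≤ h ^ 2 := by
        rw [← sq_abs t]
        exact pow_le_pow_left₀ (abs_nonneg _) (ht.trans (min_le_right _ _)) 2
      linarith
    refine le_trans ?_ (measure_mono hsub)
    have hA1 : volume {t : ℝ | x + t • u ∈ A ∩ closedBall 0 R} ≤ ENNReal.ofReal ℓ := by
      rw [← hvol]
      exact measure_mono (fun t ht => ht.1)
    have hA2 : volume {t : ℝ | x + t • u ∈ A ∩ closedBall 0 R} ≤ ENNReal.ofReal (2 * h) := by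
      calc volume {t : ℝ | x + t • u ∈ A ∩ closedBall 0 R} ≤ volume (Icc (-h) h) := by
            apply measure_mono
            intro τ hτ
            have := hτ.2
            rw [mem_closedBall_zero_iff] at this
            have h3 : ‖x‖ ^ 2 + τ ^ 2 ≤ R ^ 2 := by
              rw [← norm_sq_add hu hx]
              exact pow_le_pow_left₀ (norm_nonneg _) this 2
            rw [mem_Icc, ← abs_le]
            apply abs_le_of_sq_le_sq _ hh0
            linarith
        _ = ENNReal.ofReal (2 * h) := by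
            rw [Real.volume_Icc]; congr 1; ring
    rw [Real.volume_Icc]
    rcases min_cases (ℓ / 2) h with ⟨h4, _⟩ | ⟨h4, _⟩
    · refine hA1.trans (le_of_eq ?_)
      rw [hm, h4]; congr 1; ring
    · refine hA2.trans (le_of_eq ?_)
      rw [hm, h4]; congr 1; ring
  · have : {t : ℝ | x + t • u ∈ A ∩ closedBall 0 R} = ∅ := by
      ext t
      simp only [mem_empty_iff_false, iff_false]
      exact fun h => hne ⟨t, h⟩
    rw [this]
    simp

end Basic

section Fubini

variable {m : ℕ}

/-- Fubini along the direction `b 0` for an orthonormal basis `b`. -/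
lemma fubini (b : OrthonormalBasis (Fin (m + 1)) ℝ (Sp (m + 1))) {C : Set (Sp (m + 1))}
    (hC : MeasurableSet C) :
    volume C = ∫⁻ y : Fin m → ℝ,
      volume {t : ℝ | (∑ j, y j • b j.succ) + t • b 0 ∈ C} := by
  set e := (MeasurableEquiv.piFinSuccAbove (fun _ : Fin (m + 1) => ℝ) 0).symm with he
  have hmp1 : MeasurePreserving e :=
    (volume_preserving_piFinSuccAbove (fun _ : Fin (m + 1) => ℝ) 0).symm _
  have hmp2 : MeasurePreserving (b.repr.symm) := b.measurePreserving_repr_symm
  have hmp3 : MeasurePreserving (WithLp.toLp 2 : (Fin (m + 1) → ℝ) → EuclideanSpace ℝ (Fin (m + 1))) :=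
    PiLp.volume_preserving_toLp (Fin (m + 1))
  have hmp : MeasurePreserving (fun q : ℝ × (Fin m → ℝ) => b.repr.symm (WithLp.toLp 2 (e q))) :=
    (hmp2.comp hmp3).comp hmp1
  have hform : ∀ (t : ℝ) (y : Fin m → ℝ),
      b.repr.symm (WithLp.toLp 2 (e (t, y))) = (∑ j, y j • b j.succ) + t • b 0 := by
    intro t y
    have h1 : (∑ j, y j • b j.succ) + t • b 0 = t • b 0 + ∑ j, y j • b j.succ := by abel
    rw [← b.sum_repr_symm, h1, Fin.sum_univ_succ]
    simp [he, MeasurableEquiv.piFinSuccAbove_symm_apply]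
  rw [← hmp.measure_preimage hC.nullMeasurableSet]
  rw [show (volume : Measure (ℝ × (Fin m → ℝ))) = (volume : Measure ℝ).prod volume from rfl]
  rw [Measure.prod_apply_symm (hmp.measurable hC)]
  apply lintegral_congr
  intro y
  congr 1
  ext t
  change b.repr.symm (WithLp.toLp 2 (e (t, y))) ∈ C ↔ _
  rw [hform]
  rfl

lemma vol_compare {n : ℕ} {u : Sp n} {A : Set (Sp n)} (hu : ‖u‖ = 1) (hA : IsCompact A) (R : ℝ) :
    volume (A ∩ closedBall 0 R) ≤ volume (steiner u A ∩ closedBall 0 R) := by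
  obtain _ | m := n
  · exfalso
    have : u = 0 := Subsingleton.elim _ _
    rw [this] at hu
    simp at hu
  · obtain ⟨b, hb⟩ : ∃ b : OrthonormalBasis (Fin (m + 1)) ℝ (Sp (m + 1)), b 0 = u := by
      have hcard : Module.finrank ℝ (Sp (m + 1)) = Fintype.card (Fin (m + 1)) := by simp
      have hon : Orthonormal ℝ (({0} : Set (Fin (m + 1))).domRestrict (fun _ => u)) := by
        constructor
        · intro i; simpa using hu
        · intro i j hij
          exact absurd (Subsingleton.elim i j) hij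
      obtain ⟨b, hb⟩ := hon.exists_orthonormalBasis_extension_of_card_eq hcard
      exact ⟨b, hb 0 (by simp)⟩
    have horth : ∀ y : Fin m → ℝ, ⟪u, ∑ j, y j • b j.succ⟫ = 0 := by
      intro y
      rw [inner_sum]
      apply Finset.sum_eq_zero
      intro j _
      rw [inner_smul_right, ← hb]
      have := b.orthonormal.2 (show (0 : Fin (m + 1)) ≠ j.succ from (Fin.succ_ne_zero j).symm)
      rw [this, mul_zero]
    rw [fubini b (hA.isClosed.inter isClosed_closedBall).measurableSet,
      fubini b ((steiner_closed hu hA).inter isClosed_closedBall).measurableSet]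
    apply lintegral_mono
    intro y
    dsimp only
    rw [hb]
    exact line_compare hu hA (horth y)

end Fubini

section Iterates

variable {n : ℕ} {u : ℕ → Sp n} {A : Set (Sp n)}

lemma iter_compact (hu : ∀ i, ‖u i‖ = 1) (hA : IsCompact A) (i : ℕ) : IsCompact (iter u A i) := by
  induction i with
  | zero => exact hA
  | succ i ih => exact steiner_compact (hu i) ih

lemma iter_vol_mono (hu : ∀ i, ‖u i‖ = 1) (hA : IsCompact A) (R : ℝ) :
    Monotone (fun i => volume (iter u A i ∩ closedBall 0 R)) :=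
  monotone_nat_of_le_succ (fun i => vol_compare (hu i) (iter_compact hu hA i) R)

lemma iter_subset (hu : ∀ i, ‖u i‖ = 1) {R : ℝ} {i : ℕ} (h : iter u A i ⊆ closedBall 0 R)
    {k : ℕ} (hk : i ≤ k) : iter u A k ⊆ closedBall 0 R := by
  induction k, hk using Nat.le_induction with
  | base => exact h
  | succ k _ ih => exact steiner_subset_ball (hu k) ih

lemma iter_vol_ge (hu : ∀ i, ‖u i‖ = 1) (hA : IsCompact A) (i : ℕ) :
    volume A ≤ volume (iter u A i) := by
  obtain ⟨R, hR⟩ := hA.isBounded.subset_closedBall 0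
  have h := iter_vol_mono hu hA R (Nat.zero_le i)
  have h0 : iter u A 0 ∩ closedBall 0 R = A := inter_eq_left.mpr hR
  dsimp only at h
  rw [h0] at h
  exact h.trans (measure_mono inter_subset_left)

end Iterates

/-- scaling a point of a ball slightly inwards. -/
lemma inner_ball {n : ℕ} {r ρ : ℝ} (hr : 0 < r) (hρ : 0 ≤ ρ) (hρr : ρ ≤ r) {x : Sp n}
    (hx : x ∈ closedBall (0 : Sp n) r) :
    ∃ y : Sp n, closedBall y ρ ⊆ closedBall 0 r ∩ closedBall x (2 * ρ) := by
  have hx' : ‖x‖ ≤ r := by simpa using hx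
  have hq : 0 ≤ 1 - ρ / r := by
    rw [sub_nonneg, div_le_one hr]; exact hρr
  have hq0 : 0 ≤ ρ / r := div_nonneg hρ hr.le
  refine ⟨(1 - ρ / r) • x, ?_⟩
  intro z hz
  have hz' : ‖z - (1 - ρ / r) • x‖ ≤ ρ := by
    rw [← dist_eq_norm]; exact hz
  constructor
  · rw [mem_closedBall_zero_iff]
    calc ‖z‖ = ‖(z - (1 - ρ / r) • x) + (1 - ρ / r) • x‖ := by simp
      _ ≤ ‖z - (1 - ρ / r) • x‖ + ‖(1 - ρ / r) • x‖ := norm_add_le _ _
      _ ≤ ρ + (1 - ρ / r) * r := by
          rw [norm_smul, Real.norm_of_nonneg hq]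
          gcongr
      _ = r := by field_simp; ring
  · rw [mem_closedBall, dist_eq_norm]
    have : z - x = (z - (1 - ρ / r) • x) - (ρ / r) • x := by
      rw [sub_smul, one_smul]; abel
    rw [this]
    calc ‖(z - (1 - ρ / r) • x) - (ρ / r) • x‖ ≤ ‖z - (1 - ρ / r) • x‖ + ‖(ρ / r) • x‖ := norm_sub_le _ _
      _ ≤ ρ + ρ / r * r := by
          rw [norm_smul, Real.norm_of_nonneg hq0]
          gcongr
      _ = 2 * ρ := by field_simp; ring

/-- Full convergence: for a compact set `A` with nonempty interior and an arbitrary sequence of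
directions, Hausdorff convergence of a subsequence of the iterated Steiner symmetrizations to the
centred ball of the same volume forces Hausdorff convergence of the whole sequence. -/
theorem result (n : ℕ) (A : Set (Sp n)) (hA : IsCompact A) (hint : (interior A).Nonempty)
    (u : ℕ → Sp n) (hu : ∀ i, ‖u i‖ = 1) (r : ℝ) (hr : 0 ≤ r)
    (hvol : volume (closedBall (0 : Sp n) r) = volume A)
    (φ : ℕ → ℕ) (hφ : StrictMono φ)
    (hsub : Tendsto (fun j => hausdorffDist (iter u A (φ j)) (closedBall 0 r)) atTop (𝓝 0)) :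
    Tendsto (fun i => hausdorffDist (iter u A i) (closedBall 0 r)) atTop (𝓝 0) := by
  -- the dimension is positive
  have hn : 0 < n := by
    rcases Nat.eq_zero_or_pos n with h | h
    · subst h
      exfalso
      have h1 := hu 0
      have : u 0 = 0 := Subsingleton.elim _ _
      rw [this] at h1
      simp at h1
    · exact h
  have : Nontrivial (Sp n) := by
    refine ⟨u 0, 0, fun h => ?_⟩
    have h1 := hu 0
    rw [h] at h1
    simp at h1
  have hApos : 0 < volume A := lt_of_lt_of_le (isOpen_interior.measure_pos volume hint)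
    (measure_mono interior_subset)
  have hr0 : 0 < r := by
    rcases hr.eq_or_lt with h | h
    · exfalso
      rw [← h, closedBall_zero] at hvol
      simp at hvol
      rw [← hvol] at hApos
      exact lt_irrefl _ hApos
    · exact h
  have hBfin : volume (closedBall (0 : Sp n) r) ≠ ⊤ := (isCompact_closedBall _ _).measure_lt_top.ne
  have hAne : ∀ i, (iter u A i).Nonempty := by
    intro i
    apply nonempty_of_measure_ne_zero (μ := volume)
    exact (lt_of_lt_of_le hApos (iter_vol_ge hu hA i)).ne'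
  -- outer control
  have houter : ∀ ε > 0, ∃ J, ∀ j ≥ J, iter u A (φ j) ⊆ closedBall 0 (r + ε) := by
    intro ε hε
    rw [Metric.tendsto_atTop] at hsub
    obtain ⟨J, hJ⟩ := hsub ε hε
    refine ⟨J, fun j hj z hz => ?_⟩
    have h1 := hJ j hj
    rw [Real.dist_eq, sub_zero, abs_of_nonneg hausdorffDist_nonneg] at h1
    have hfin : hausdorffEDist (iter u A (φ j)) (closedBall (0 : Sp n) r) ≠ ⊤ :=
      hausdorffEDist_ne_top_of_nonempty_of_bounded (hAne _) ⟨0, by simpa using hr⟩
        (iter_compact hu hA _).isBounded isBounded_closedBall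
    obtain ⟨y, hy, hyz⟩ := exists_dist_lt_of_hausdorffDist_lt hz h1 hfin
    rw [mem_closedBall_zero_iff] at hy ⊢
    have h2 : ‖z‖ ≤ ‖z - y‖ + ‖y‖ := by
      have := norm_add_le (z - y) y
      simpa using this
    rw [dist_eq_norm] at hyz
    linarith
  rw [Metric.tendsto_atTop]
  intro ε hε
  -- radius of the test ball
  set ρ := min (ε / 4) r with hρ
  have hρ0 : 0 < ρ := lt_min (by linarith) hr0
  have hρr : ρ ≤ r := min_le_right _ _
  have hρε : ρ ≤ ε / 4 := min_le_left _ _
  set μ0 : ENNReal := volume (closedBall (0 : Sp n) ρ) with hμ0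
  have hμ0pos : 0 < μ0 := measure_closedBall_pos _ _ hρ0
  -- choose η with vol (B_{r+η}) < vol (B_r) + μ0
  obtain ⟨η, hη0, hηε, hη⟩ : ∃ η > 0, η ≤ ε / 2 ∧
      volume (closedBall (0 : Sp n) (r + η)) < volume (closedBall (0 : Sp n) r) + μ0 := by
    have hlim := tendsto_measure_cthickening_of_isCompact (μ := (volume : Measure (Sp n)))
      (isCompact_closedBall (0 : Sp n) r)
    have hlt : volume (closedBall (0 : Sp n) r) < volume (closedBall (0 : Sp n) r) + μ0 :=
      ENNReal.lt_add_right hBfin hμ0pos.ne'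
    have hev := hlim.eventually (gt_mem_nhds hlt)
    rw [Metric.eventually_nhds_iff] at hev
    obtain ⟨δ, hδ, h⟩ := hev
    refine ⟨min (δ / 2) (ε / 2), lt_min (by linarith) (by linarith), min_le_right _ _, ?_⟩
    have hpos : 0 < min (δ / 2) (ε / 2) := lt_min (by linarith) (by linarith)
    have h2 := h (y := min (δ / 2) (ε / 2)) (by
      rw [Real.dist_eq, sub_zero, abs_of_pos hpos]
      exact lt_of_le_of_lt (min_le_left _ _) (by linarith))
    rwa [cthickening_closedBall hpos.le hr, add_comm] at h2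
  obtain ⟨J, hJ⟩ := houter η hη0
  have hJ' := hJ J le_rfl
  -- inner control at the time φ J
  have hinner : volume (closedBall (0 : Sp n) r) <
      volume (iter u A (φ J) ∩ closedBall 0 r) + μ0 := by
    have hmeas : MeasurableSet (iter u A (φ J)) := (iter_compact hu hA _).isClosed.measurableSet
    have h1 : volume (iter u A (φ J)) =
        volume (iter u A (φ J) ∩ closedBall 0 r) + volume (iter u A (φ J) \ closedBall 0 r) :=
      (measure_inter_add_sdiff _ isClosed_closedBall.measurableSet).symm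
    have h2 : volume (iter u A (φ J) \ closedBall 0 r) ≤
        volume (closedBall (0 : Sp n) (r + η) \ closedBall 0 r) :=
      measure_mono (sdiff_subset_sdiff_left hJ')
    have h3 : volume (closedBall (0 : Sp n) (r + η) \ closedBall 0 r) < μ0 := by
      rw [measure_sdiff (closedBall_subset_closedBall (by linarith))
        isClosed_closedBall.measurableSet.nullMeasurableSet hBfin]
      exact ENNReal.sub_lt_of_lt_add (measure_mono (closedBall_subset_closedBall (by linarith)))
        (by rw [add_comm μ0]; exact hη)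
    have h4 : volume (closedBall (0 : Sp n) r) ≤ volume (iter u A (φ J)) := by
      rw [hvol]; exact iter_vol_ge hu hA _
    have h5 : volume (iter u A (φ J) ∩ closedBall 0 r) ≠ ⊤ :=
      ne_top_of_le_ne_top hBfin (measure_mono inter_subset_right)
    calc volume (closedBall (0 : Sp n) r) ≤ volume (iter u A (φ J)) := h4
      _ = _ := h1
      _ < _ := ENNReal.add_lt_add_left h5 (lt_of_le_of_lt h2 h3)
  refine ⟨φ J, fun i hi => ?_⟩
  rw [Real.dist_eq, sub_zero, abs_of_nonneg hausdorffDist_nonneg]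
  have hout : iter u A i ⊆ closedBall 0 (r + η) := iter_subset hu hJ' hi
  have hin : volume (closedBall (0 : Sp n) r) < volume (iter u A i ∩ closedBall 0 r) + μ0 :=
    lt_of_lt_of_le hinner (add_le_add_left (iter_vol_mono hu hA r hi) _)
  have hle : hausdorffDist (iter u A i) (closedBall (0 : Sp n) r) ≤ ε / 2 := by
    apply hausdorffDist_le_of_mem_dist (by linarith)
    · intro z hz
      have hz' := hout hz
      rw [add_comm, ← cthickening_closedBall hη0.le hr] at hz'
      rw [(isCompact_closedBall (0 : Sp n) r).cthickening_eq_biUnion_closedBall hη0.le] at hz'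
      simp only [mem_iUnion, exists_prop] at hz'
      obtain ⟨y, hy, hyz⟩ := hz'
      refine ⟨y, hy, ?_⟩
      rw [mem_closedBall] at hyz
      linarith
    · intro x hx
      by_contra hcon
      push Not at hcon
      obtain ⟨y, hy⟩ := inner_ball hr0 hρ0.le hρr hx
      have hdisj : Disjoint (iter u A i ∩ closedBall 0 r) (closedBall y ρ) := by
        rw [Set.disjoint_left]
        rintro z ⟨hz, _⟩ hz2
        have h1 := (hy hz2).2
        rw [mem_closedBall, dist_comm] at h1
        have h2 := hcon z hz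
        linarith
      have hunion : (iter u A i ∩ closedBall 0 r) ∪ closedBall y ρ ⊆ closedBall 0 r :=
        union_subset inter_subset_right (fun z hz => (hy hz).1)
      have hm := measure_mono (μ := volume) hunion
      rw [measure_union hdisj isClosed_closedBall.measurableSet] at hm
      have heq : volume (closedBall y ρ) = μ0 := by
        rw [hμ0, Measure.addHaar_closedBall_center]
      rw [heq] at hm
      exact absurd hin (not_lt.mpr hm)
  linarith

end Pool.Agent.Results.MP_c699aa_gt.FullConvergence
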